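import Pool.Agent.Y403.OA.Deg

/-!
# All kinds of vertex orders between Type-A and Type-B, on graphs of maximum degree six

An algorithm which finds a Type-A order, or a Type-B order, or an order of any kind between the two,
finds in particular a Type-B order for every graph that has a Type-A order. We show that already
this weaker task, for graphs of maximum degree at most six, can be solved in polynomial time only if
`P = NP`.

The reduction is from satisfiability with at most three literals per clause where every literal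
occurs at most twice (every variable gets one copy for each occurrence of a literal in the formula;
cyclic implications make the copies equal).
-/

set_option autoImplicit false

namespace Pool.Agent.Results.MP_c8d28d_lc.BetweenAAndB

open Pool.Agent.NPC Pool.Agent.NPC.R671 Pool.Agent.H671R2.Ord Pool.Agent.Y403.OA

/-- All vertices of `G` have degree at most `d`. -/
def DegreeAtMost {n : ℕ} (d : ℕ) (G : SimpleGraph (Fin n)) : Prop :=
  ∀ v, (G.neighborSet v).ncard ≤ d

/-- A kind of vertex orders: for each graph a set of orders (given by the positions of the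
vertices). -/
abbrev Kind : Type := ∀ n : ℕ, SimpleGraph (Fin n) → (Fin n ≃ Fin n) → Prop

/-- Every Type-A order is of the kind `T`, and every order of the kind `T` is a Type-B order. -/
def Between (T : Kind) : Prop :=
  ∀ (n : ℕ) (G : SimpleGraph (Fin n)) (pos : Fin n ≃ Fin n),
    (IsTypeA G pos → T n G pos) ∧ (T n G pos → IsTypeB G pos)

/-- There is a polynomial-time algorithm which, given any graph with all degrees at most `d` that
has an order of the kind `T`, outputs an order of the kind `T`. -/
def Findable (d : ℕ) (T : Kind) : Prop :=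
  ∃ A : List Bool → List Bool, PolyTime A ∧ ∀ (n : ℕ) (G : SimpleGraph (Fin n)),
    DegreeAtMost d G → (∃ pos, T n G pos) →
      ∃ pos, T n G pos ∧ A (bits (adjMatrix G)) = bits (orderList pos)

/-- There is a polynomial-time algorithm which, given any graph with all degrees at most `d` that
has a Type-A order, outputs a Type-B order. -/
def WeaklyFindable (d : ℕ) : Prop :=
  ∃ A : List Bool → List Bool, PolyTime A ∧ ∀ (n : ℕ) (G : SimpleGraph (Fin n)),
    DegreeAtMost d G → (∃ pos, IsTypeA G pos) →
      ∃ pos, IsTypeB G pos ∧ A (bits (adjMatrix G)) = bits (orderList pos)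

/-- The decision problem: given an adjacency matrix, is it the matrix of a graph with all degrees
at most `d` which has an order of the kind `T`? -/
def Admits (d : ℕ) (T : Kind) (M : List (List Bool)) : Prop :=
  ∃ (n : ℕ) (G : SimpleGraph (Fin n)), adjMatrix G = M ∧ DegreeAtMost d G ∧ ∃ pos, T n G pos

theorem collapse (h : WeaklyFindable 6) : PEqNP := by
  obtain ⟨A, hA, hA'⟩ := h
  intro L hL
  obtain ⟨f, hf, hfL⟩ := hard6 L hL
  refine inP_of_search RvB_poly hA hf fun w => ?_
  obtain ⟨n, G, h1, hdeg, hwA, hwB⟩ := hfL w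
  have key : (∃ l, RvB (adjMatrix G, l) = true) ↔ ∃ pos, IsTypeB G pos := by
    simp only [RvB_matrix]
    constructor
    · rintro ⟨l, pos, _, h⟩
      exact ⟨pos, h⟩
    · rintro ⟨pos, h⟩
      exact ⟨_, pos, rfl, h⟩
  refine ⟨adjMatrix G, h1, by rw [hwB, key], fun h => ?_⟩
  obtain ⟨pos, h3, h4⟩ := hA' n G hdeg (hwA.1 (hwB.2 (key.1 h)))
  exact ⟨orderList pos, (RvB_matrix G _).2 ⟨pos, rfl, h3⟩, by rw [h1, h4]⟩

theorem weak_of_findable {d : ℕ} {T : Kind} (hT : Between T) (h : Findable d T) :
    WeaklyFindable d := by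
  obtain ⟨A, hA, hA'⟩ := h
  refine ⟨A, hA, fun n G hdeg hG => ?_⟩
  obtain ⟨pos, hpos⟩ := hG
  obtain ⟨pos', h1, h2⟩ := hA' n G hdeg ⟨pos, (hT n G pos).1 hpos⟩
  exact ⟨pos', (hT n G pos').2 h1, h2⟩

theorem hard_admits (T : Kind) (hT : Between T) : NPHardP (Admits 6 T) := by
  have h : HardI (Admits 6 T) := by
    refine HardPr.toHardI (hard_src.trans (Pr' := fun _ => True) gr_poly (fun _ _ => trivial) ?_)
    rintro ψ ⟨φ, hb, rfl⟩
    constructor
    · intro h
      obtain ⟨pos, hpos⟩ := (typeA_iff (sp φ)).1 h
      exact ⟨_, gr (sp φ), rfl, fun v => deg_gr hb v, pos, (hT _ _ pos).1 hpos⟩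
    · rintro ⟨n, G, hG, _, pos, hpos⟩
      refine (typeB_iff (sp φ)).2 ((matrix_iff (gr (sp φ)) (fun n G => ∃ pos, IsTypeB G pos)).1
        ⟨n, G, hG, pos, (hT _ _ pos).2 hpos⟩)
  exact h.toNPHardP

/-- **Finding vertex orders between Type-A and Type-B is NP-hard on graphs of maximum degree
six.** -/
theorem result :
    (WeaklyFindable 6 ↔ PEqNP) ∧
    (∀ T : Kind, Between T → NPHardP (Admits 6 T) ∧ (Findable 6 T → PEqNP)) ∧
    ((FindableA ↔ PEqNP) ∧ (FindableB ↔ PEqNP)) := by
  refine ⟨⟨collapse, fun h => ?_⟩, fun T hT => ⟨hard_admits T hT, fun h => ?_⟩, findableA_iff,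
    findableB_iff⟩
  · obtain ⟨A, hA, hA'⟩ := findableA_iff.2 h
    refine ⟨A, hA, fun n G _ hG => ?_⟩
    obtain ⟨pos, h1, h2⟩ := hA' n G hG
    exact ⟨pos, typeB_of_typeA h1, h2⟩
  · exact collapse (weak_of_findable hT h)

end Pool.Agent.Results.MP_c8d28d_lc.BetweenAAndB
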